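import Mathlib

set_option autoImplicit false

namespace Pool.Agent.Results.MP_fbd18f_co.ShortRepetitions

open scoped Classical

/-! ### Convex sets of indices -/

/-- A finite set of natural numbers that is an interval. -/
def Cvx (A : Finset ℕ) : Prop := ∀ a b c, a ≤ b → b ≤ c → a ∈ A → c ∈ A → b ∈ A

lemma Cvx.union {A B : Finset ℕ} (hA : Cvx A) (hB : Cvx B) {x : ℕ} (hxA : x ∈ A)
    (hxB : x ∈ B) : Cvx (A ∪ B) := by
  intro a b c hab hbc ha hc
  rw [Finset.mem_union] at *
  rcases le_total b x with h | h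
  · rcases ha with ha | ha
    · exact Or.inl (hA a b x hab h ha hxA)
    · exact Or.inr (hB a b x hab h ha hxB)
  · rcases hc with hc | hc
    · exact Or.inl (hA x b c h hbc hxA hc)
    · exact Or.inr (hB x b c h hbc hxB hc)

lemma Cvx.chain (f : ℕ → Finset ℕ) (n : ℕ) (h : ∀ i ≤ n, Cvx (f i))
    (h2 : ∀ i < n, ∃ x, x ∈ f i ∧ x ∈ f (i + 1)) :
    Cvx ((Finset.range (n + 1)).biUnion f) := by
  induction n with
  | zero => simpa using h 0 le_rfl
  | succ n ih =>
    obtain ⟨x, hx1, hx2⟩ := h2 n (by omega)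
    rw [Finset.range_add_one, Finset.biUnion_insert, Finset.union_comm]
    refine Cvx.union (ih (fun i hi => h i (by omega)) (fun i hi => h2 i (by omega)))
      (h (n + 1) le_rfl) (x := x) ?_ hx2
    rw [Finset.mem_biUnion]
    exact ⟨n, Finset.mem_range.2 (by omega), hx1⟩

/-! ### Greedy colouring of intervals from lists -/

lemma greedy {V α : Type} (T : V → Finset ℕ) (hne : ∀ v, (T v).Nonempty)
    (hT : ∀ v, Cvx (T v)) (N : ℕ) (hN : 0 < N) (L : V → Finset α) (hL : ∀ v, N ≤ (L v).card)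
    (s : Finset V) (hd : ∀ j, (s.filter (fun v => j ∈ T v)).card ≤ N) :
    ∃ c : V → α, (∀ v, c v ∈ L v) ∧
      ∀ u ∈ s, ∀ v ∈ s, u ≠ v → (∃ j, j ∈ T u ∧ j ∈ T v) → c u ≠ c v := by
  induction s using Finset.induction_on_max_value (fun v => (T v).min' (hne v)) with
  | empty =>
    have h : ∀ v, ∃ x, x ∈ L v := fun v => Finset.card_pos.1 (hN.trans_le (hL v))
    choose c hc using h
    exact ⟨c, hc, by simp⟩
  | insert a s has hmax ih =>
    obtain ⟨c, hcL, hc⟩ := ih (fun j => (Finset.card_le_card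
      (Finset.filter_subset_filter _ (Finset.subset_insert a s))).trans (hd j))
    set x := (T a).min' (hne a) with hx
    have hxa : x ∈ T a := Finset.min'_mem _ _
    -- the coloured neighbours contain `x`
    have hcont : ∀ u ∈ s, (∃ j, j ∈ T u ∧ j ∈ T a) → x ∈ T u := by
      rintro u hu ⟨j, hj1, hj2⟩
      exact hT u _ x j (hmax u hu) (Finset.min'_le _ _ hj2) (Finset.min'_mem _ (hne u)) hj1
    have hlt : ((s.filter (fun v => x ∈ T v)).image c).card < N := by
      refine lt_of_le_of_lt Finset.card_image_le ?_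
      have h1 := hd x
      rw [Finset.filter_insert, if_pos hxa, Finset.card_insert_of_notMem
        (fun h => has (Finset.mem_filter.1 h).1)] at h1
      omega
    obtain ⟨y, hyL, hy⟩ : ∃ y ∈ L a, y ∉ (s.filter (fun v => x ∈ T v)).image c :=
      Finset.exists_mem_notMem_of_card_lt_card (hlt.trans_le (hL a))
    have hya : ∀ u ∈ s, (∃ j, j ∈ T u ∧ j ∈ T a) → c u ≠ y := by
      intro u hu h1 h2
      exact hy (Finset.mem_image.2 ⟨u, Finset.mem_filter.2 ⟨hu, hcont u hu h1⟩, h2⟩)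
    refine ⟨Function.update c a y, ?_, ?_⟩
    · intro v
      by_cases hva : v = a
      · rw [hva, Function.update_self]
        exact hyL
      · rw [Function.update_of_ne hva]
        exact hcL v
    intro u hu v hv huv hj
    rw [Finset.mem_insert] at hu hv
    rcases hu with rfl | hu
    · rcases hv with rfl | hv
      · exact absurd rfl huv
      · rw [Function.update_self, Function.update_of_ne huv.symm]
        obtain ⟨j, hj1, hj2⟩ := hj
        exact (hya v hv ⟨j, hj2, hj1⟩).symm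
    · rcases hv with rfl | hv
      · rw [Function.update_self, Function.update_of_ne huv]
        exact hya u hu hj
      · have hua : u ≠ a := by
          rintro rfl
          exact has hu
        have hva : v ≠ a := by
          rintro rfl
          exact has hv
        rw [Function.update_of_ne hua, Function.update_of_ne hva]
        exact hc u hu v hv huv hj

/-! ### Pure strategies and territories -/

section Strat

variable {V : Type} [Fintype V] (I : V → Finset ℕ) (m : ℕ)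

/-- A non-empty set of at most `m` vertices whose intervals together form an interval. -/
def Good (P : Finset V) : Prop := P.Nonempty ∧ P.card ≤ m ∧ Cvx (P.biUnion I)

/-- The territory of `w`: the union of all good sets assigned to `w`. -/
noncomputable def ter (F : Finset V → V) (w : V) : Finset ℕ :=
  (Finset.univ.filter (fun P => Good I m P ∧ F P = w)).biUnion (fun P => P.biUnion I)

variable {I m}

lemma mem_ter {F : Finset V → V} {w : V} {j : ℕ} :
    j ∈ ter I m F w ↔ ∃ P, Good I m P ∧ F P = w ∧ j ∈ P.biUnion I := by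
  unfold ter
  simp only [Finset.mem_biUnion, Finset.mem_filter, Finset.mem_univ, true_and]
  constructor
  · rintro ⟨P, ⟨h1, h2⟩, h3⟩; exact ⟨P, h1, h2, h3⟩
  · rintro ⟨P, h1, h2, h3⟩; exact ⟨P, ⟨h1, h2⟩, h3⟩

omit [Fintype V] in
lemma good_singleton (hm : 1 ≤ m) (hI : ∀ v, Cvx (I v)) (w : V) : Good I m {w} := by
  refine ⟨Finset.singleton_nonempty w, by simpa using hm, ?_⟩
  rw [Finset.singleton_biUnion]
  exact hI w

lemma I_sub_ter (hm : 1 ≤ m) (hI : ∀ v, Cvx (I v)) {F : Finset V → V}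
    (hF : ∀ P, Good I m P → F P ∈ P) (w : V) : I w ⊆ ter I m F w := by
  intro j hj
  rw [mem_ter]
  refine ⟨{w}, good_singleton hm hI w, Finset.mem_singleton.1 (hF _ (good_singleton hm hI w)), ?_⟩
  rw [Finset.singleton_biUnion]
  exact hj

lemma ter_between {F : Finset V → V} (hF : ∀ P, Good I m P → F P ∈ P) {w : V} {x a b : ℕ}
    (hx : x ∈ I w) (ha : a ∈ ter I m F w) (hab : (a ≤ b ∧ b ≤ x) ∨ (x ≤ b ∧ b ≤ a)) :
    b ∈ ter I m F w := by
  rw [mem_ter] at *
  obtain ⟨P, hP, hFP, ha⟩ := ha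
  refine ⟨P, hP, hFP, ?_⟩
  have hxP : x ∈ P.biUnion I := by
    rw [Finset.mem_biUnion]
    exact ⟨w, hFP ▸ hF P hP, hx⟩
  rcases hab with ⟨h1, h2⟩ | ⟨h1, h2⟩
  · exact hP.2.2 a b x h1 h2 ha hxP
  · exact hP.2.2 x b a h1 h2 hxP ha

lemma sum_biUnion_le {ι : Type} (s : Finset ι) (t : ι → Finset ℕ) (g : ℕ → ℝ)
    (hg : ∀ j, 0 ≤ g j) : ∑ j ∈ s.biUnion t, g j ≤ ∑ i ∈ s, ∑ j ∈ t i, g j := by
  induction s using Finset.induction_on with
  | empty => simp
  | insert a s has ih =>
    rw [Finset.biUnion_insert, Finset.sum_insert has]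
    have h1 := Finset.sum_union_inter (s₁ := t a) (s₂ := s.biUnion t) (f := g)
    have h2 : 0 ≤ ∑ j ∈ t a ∩ s.biUnion t, g j := Finset.sum_nonneg fun j _ => hg j
    linarith

lemma best_response (hm : 1 ≤ m) (hne : ∀ v, (I v).Nonempty) (hI : ∀ v, Cvx (I v))
    [Nonempty V] (g : ℕ → ℝ) (hg : ∀ j, 0 ≤ g j) :
    ∃ F : Finset V → V, (∀ P, Good I m P → F P ∈ P) ∧
      ∀ w, ∑ j ∈ ter I m F w \ I w, g j ≤ 2 * ((m : ℝ) - 1) * ∑ j ∈ I w, g j := by
  have hex : ∀ P : Finset V, ∃ w : V, P.Nonempty → w ∈ P ∧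
      ∀ v ∈ P, ∑ j ∈ I v, g j ≤ ∑ j ∈ I w, g j := by
    intro P
    by_cases h : P.Nonempty
    · obtain ⟨w, hw, hw2⟩ := Finset.exists_max_image P (fun v => ∑ j ∈ I v, g j) h
      exact ⟨w, fun _ => ⟨hw, hw2⟩⟩
    · exact ⟨Classical.arbitrary V, fun h' => absurd h' h⟩
  choose F hF using hex
  have hFm : ∀ P, Good I m P → F P ∈ P := fun P hP => (hF P hP.1).1
  refine ⟨F, hFm, fun w => ?_⟩
  have hside : ∀ P, Good I m P → F P = w →
      ∑ j ∈ P.biUnion I \ I w, g j ≤ ((m : ℝ) - 1) * ∑ j ∈ I w, g j := by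
    intro P hP hPw
    have hwP : w ∈ P := hPw ▸ hFm P hP
    have h1 : P.biUnion I \ I w ⊆ (P.erase w).biUnion I := by
      intro j hj
      rw [Finset.mem_sdiff, Finset.mem_biUnion] at hj
      obtain ⟨⟨v, hv, hjv⟩, hjw⟩ := hj
      rw [Finset.mem_biUnion]
      refine ⟨v, Finset.mem_erase.2 ⟨?_, hv⟩, hjv⟩
      rintro rfl
      exact hjw hjv
    have h0 : 0 ≤ ∑ j ∈ I w, g j := Finset.sum_nonneg fun j _ => hg j
    calc ∑ j ∈ P.biUnion I \ I w, g j ≤ ∑ j ∈ (P.erase w).biUnion I, g j :=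
          Finset.sum_le_sum_of_subset_of_nonneg h1 fun j _ _ => hg j
      _ ≤ ∑ v ∈ P.erase w, ∑ j ∈ I v, g j := sum_biUnion_le _ _ _ hg
      _ ≤ ∑ _v ∈ P.erase w, ∑ j ∈ I w, g j := by
          refine Finset.sum_le_sum fun v hv => ?_
          have := (hF P hP.1).2 v (Finset.mem_of_mem_erase hv)
          rw [hPw] at this
          exact this
      _ = ((P.card : ℝ) - 1) * ∑ j ∈ I w, g j := by
          rw [Finset.sum_const, Finset.card_erase_of_mem hwP, nsmul_eq_mul,
            Nat.cast_sub (Finset.card_pos.2 hP.1)]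
          simp
      _ ≤ ((m : ℝ) - 1) * ∑ j ∈ I w, g j := by
          refine mul_le_mul_of_nonneg_right ?_ h0
          have : (P.card : ℝ) ≤ m := by exact_mod_cast hP.2.1
          linarith
  obtain ⟨x, hx⟩ := hne w
  have hxt : x ∈ ter I m F w := I_sub_ter hm hI hFm w hx
  have htne : (ter I m F w).Nonempty := ⟨x, hxt⟩
  obtain ⟨P0, hP0, hF0, ha⟩ := mem_ter.1 ((ter I m F w).min'_mem htne)
  obtain ⟨P1, hP1, hF1, hb⟩ := mem_ter.1 ((ter I m F w).max'_mem htne)
  have hx0 : x ∈ P0.biUnion I := Finset.mem_biUnion.2 ⟨w, hF0 ▸ hFm P0 hP0, hx⟩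
  have hx1 : x ∈ P1.biUnion I := Finset.mem_biUnion.2 ⟨w, hF1 ▸ hFm P1 hP1, hx⟩
  have hsub : ter I m F w \ I w ⊆ (P0.biUnion I \ I w) ∪ (P1.biUnion I \ I w) := by
    intro j hj
    rw [Finset.mem_sdiff] at hj
    rw [Finset.mem_union, Finset.mem_sdiff, Finset.mem_sdiff]
    rcases le_total j x with h | h
    · exact Or.inl ⟨hP0.2.2 _ j x (Finset.min'_le _ _ hj.1) h ha hx0, hj.2⟩
    · exact Or.inr ⟨hP1.2.2 x j _ h (Finset.le_max' _ _ hj.1) hx1 hb, hj.2⟩
  calc ∑ j ∈ ter I m F w \ I w, g j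
      ≤ ∑ j ∈ (P0.biUnion I \ I w) ∪ (P1.biUnion I \ I w), g j :=
        Finset.sum_le_sum_of_subset_of_nonneg hsub fun j _ _ => hg j
    _ ≤ ∑ j ∈ P0.biUnion I \ I w, g j + ∑ j ∈ P1.biUnion I \ I w, g j := by
        have h1 := Finset.sum_union_inter (s₁ := P0.biUnion I \ I w)
          (s₂ := P1.biUnion I \ I w) (f := g)
        have h2 : 0 ≤ ∑ j ∈ (P0.biUnion I \ I w) ∩ (P1.biUnion I \ I w), g j :=
          Finset.sum_nonneg fun j _ => hg j
        linarith
    _ ≤ 2 * ((m : ℝ) - 1) * ∑ j ∈ I w, g j := by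
        have h1 := hside P0 hP0 hF0
        have h2 := hside P1 hP1 hF1
        linarith

end Strat

/-! ### A finite minimax theorem -/

theorem minimax {E : Type*} [AddCommGroup E] [Module ℝ E] {Φ : Type*} [Fintype Φ] [Nonempty Φ]
    (K : Set E) (hK : Convex ℝ K) (f : Φ → E → ℝ) (hf : ∀ φ, ConcaveOn ℝ K (f φ)) (c : ℝ)
    (h : ∀ l : Φ → ℝ, (∀ φ, 0 ≤ l φ) → ∑ φ, l φ = 1 → ∃ p ∈ K, c ≤ ∑ φ, l φ * f φ p)
    (ε : ℝ) (hε : 0 < ε) : ∃ p ∈ K, ∀ φ, c - ε ≤ f φ p := by
  by_contra hcon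
  push Not at hcon
  -- the two convex sets
  set A : Set (Φ → ℝ) := {u | ∀ φ, c - ε < u φ} with hA
  set B : Set (Φ → ℝ) := {u | ∃ p ∈ K, ∀ φ, u φ ≤ f φ p} with hB
  have hAconv : Convex ℝ A := by
    intro u hu v hv a b ha hb hab φ
    have h1 := hu φ
    have h2 := hv φ
    simp only [Pi.add_apply, Pi.smul_apply, smul_eq_mul]
    rcases ha.eq_or_lt with ha0 | ha0
    · subst ha0
      have : b = 1 := by linarith
      subst this; linarith
    · have h3 := mul_lt_mul_of_pos_left h1 ha0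
      have h4 := mul_le_mul_of_nonneg_left h2.le hb
      have h5 : a * (c - ε) + b * (c - ε) = c - ε := by rw [← add_mul, hab, one_mul]
      linarith
  have hAopen : IsOpen A := by
    have : A = ⋂ φ, {u : Φ → ℝ | c - ε < u φ} := by
      ext u; simp [hA]
    rw [this]
    exact isOpen_iInter_of_finite fun φ => isOpen_lt continuous_const (continuous_apply φ)
  have hBconv : Convex ℝ B := by
    rintro u ⟨p, hp, hup⟩ v ⟨q, hq, hvq⟩ a b ha hb hab
    refine ⟨a • p + b • q, hK hp hq ha hb hab, fun φ => ?_⟩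
    have h1 := (hf φ).2 hp hq ha hb hab
    simp only [smul_eq_mul] at h1
    simp only [Pi.add_apply, Pi.smul_apply, smul_eq_mul]
    nlinarith [mul_le_mul_of_nonneg_left (hup φ) ha, mul_le_mul_of_nonneg_left (hvq φ) hb]
  have hdisj : Disjoint A B := by
    rw [Set.disjoint_left]
    rintro u hu ⟨p, hp, hup⟩
    obtain ⟨φ, hφ⟩ := hcon p hp
    have := hu φ
    have := hup φ
    linarith
  obtain ⟨F, s, hFA, hFB⟩ := geometric_hahn_banach_open hAconv hAopen hBconv hdisj
  set l : Φ → ℝ := fun φ => - F (Pi.single φ 1) with hl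
  have hF : ∀ u : Φ → ℝ, F u = - ∑ φ, l φ * u φ := by
    intro u
    have h1 : u = ∑ φ, u φ • (Pi.single φ (1:ℝ) : Φ → ℝ) := by
      funext ψ
      simp [Finset.sum_apply, Pi.single_apply]
    conv_lhs => rw [h1]
    rw [map_sum, ← Finset.sum_neg_distrib]
    refine Finset.sum_congr rfl fun φ _ => ?_
    rw [map_smul, hl]; simp [mul_comm]
  have hl0 : ∀ φ, 0 ≤ l φ := by
    intro φ
    by_contra hneg
    push Not at hneg
    -- base point
    set u0 : Φ → ℝ := fun _ => c - ε + 1 with hu0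
    obtain ⟨t, ht0, ht⟩ : ∃ t : ℝ, 0 ≤ t ∧ s - F u0 ≤ t * (- l φ) := by
      refine ⟨max 0 ((s - F u0) / (- l φ)), le_max_left _ _, ?_⟩
      have := le_max_right 0 ((s - F u0) / (- l φ))
      rw [div_le_iff₀ (by linarith)] at this
      exact this
    have h2 : (u0 + t • (Pi.single φ (1:ℝ) : Φ → ℝ)) ∈ A := by
      intro ψ
      simp only [Pi.add_apply, Pi.smul_apply, smul_eq_mul, hu0]
      have : 0 ≤ t * (Pi.single φ (1:ℝ) : Φ → ℝ) ψ := by
        apply mul_nonneg ht0
        by_cases h : ψ = φ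
        · subst h; simp
        · rw [Pi.single_eq_of_ne h]
      linarith
    have h3 := hFA _ h2
    rw [map_add, map_smul, smul_eq_mul] at h3
    have h4 : F (Pi.single φ 1) = - l φ := by simp [hl]
    rw [h4] at h3
    linarith
  have hu : ∀ t : ℝ, 0 < t → - ((∑ φ, l φ) * (c - ε + t)) < s := by
    intro t ht
    have h1 : (fun _ => c - ε + t : Φ → ℝ) ∈ A := fun φ => by simp only; linarith
    have h2 := hFA _ h1
    rw [hF] at h2
    rw [Finset.sum_mul]
    exact h2
  have hpos : 0 < ∑ φ, l φ := by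
    refine lt_of_le_of_ne (Finset.sum_nonneg fun φ _ => hl0 φ) fun h0 => ?_
    have hlz : ∀ φ, l φ = 0 := fun φ =>
      (Finset.sum_eq_zero_iff_of_nonneg (fun φ _ => hl0 φ)).1 h0.symm φ (Finset.mem_univ φ)
    have h1 := hu 1 one_pos
    rw [← h0] at h1
    obtain ⟨p, hp, -⟩ := h (fun _ => 1 / (Fintype.card Φ : ℝ)) (fun _ => by positivity) (by
      simp)
    have h2 := hFB (fun φ => f φ p) ⟨p, hp, fun _ => le_rfl⟩
    rw [hF] at h2
    simp [hlz] at h2 h1
    linarith
  obtain ⟨p, hp, hcp⟩ := h (fun φ => l φ / ∑ ψ, l ψ) (fun φ => div_nonneg (hl0 φ) hpos.le) (by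
    rw [← Finset.sum_div, div_self hpos.ne'])
  have h2 := hFB (fun φ => f φ p) ⟨p, hp, fun _ => le_rfl⟩
  rw [hF] at h2
  have h3 : ∑ φ, l φ / (∑ ψ, l ψ) * f φ p = (∑ φ, l φ * f φ p) / ∑ ψ, l ψ := by
    rw [Finset.sum_div]
    exact Finset.sum_congr rfl fun φ _ => by ring
  rw [h3, le_div_iff₀ hpos] at hcp
  have h4 := hu (ε / 2) (by linarith)
  nlinarith

/-! ### Territories of linear depth -/

section Terr

variable {V : Type} [Fintype V] {I : V → Finset ℕ} {m : ℕ}

lemma double_count (A : V → Finset ℕ) (M : ℕ) (hA : ∀ v, A v ⊆ Finset.range M) (g : ℕ → ℝ) :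
    ∑ j : Fin M, g j * ((Finset.univ.filter (fun v => (j : ℕ) ∈ A v)).card : ℝ) =
      ∑ v, ∑ j ∈ A v, g j := by
  rw [Fin.sum_univ_eq_sum_range
    (fun j => g j * ((Finset.univ.filter (fun v => j ∈ A v)).card : ℝ)) M]
  have h1 : ∀ j, g j * ((Finset.univ.filter (fun v => j ∈ A v)).card : ℝ) =
      ∑ v, if j ∈ A v then g j else 0 := by
    intro j
    rw [← Finset.sum_filter, Finset.sum_const, nsmul_eq_mul, mul_comm]
  rw [Finset.sum_congr rfl fun j _ => h1 j, Finset.sum_comm]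
  refine Finset.sum_congr rfl fun v _ => ?_
  rw [← Finset.sum_filter]
  refine Finset.sum_congr ?_ fun _ _ => rfl
  ext j
  rw [Finset.mem_filter]
  exact ⟨fun h => h.2, fun h => ⟨hA v h, h⟩⟩

lemma cast_bound {m : ℕ} (hm : 1 ≤ m) (a b : ℕ)
    (h : (a : ℝ) < 2 * m * ((m : ℝ) - 1) * (b : ℝ) + 1) : a ≤ 2 * m * (m - 1) * b := by
  have h6 : (a : ℝ) < ((2 * m * (m - 1) * b + 1 : ℕ) : ℝ) := by
    refine h.trans_le (le_of_eq ?_)
    push_cast [Nat.cast_sub hm]
    ring
  exact Nat.lt_succ_iff.1 (Nat.cast_lt.1 h6)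

/-- **Territories.** Every vertex `v` gets an interval `T v ⊇ I v` such that at each index the
depth grows by a factor of at most `2 m (m - 1) + 1`, and every set of at most `m` vertices whose
intervals together form an interval `U` has a member `w` with `U ⊆ T w`. -/
lemma territories [Nonempty V] (hm : 1 ≤ m) (hne : ∀ v, (I v).Nonempty) (hI : ∀ v, Cvx (I v))
    (M : ℕ) (hM : ∀ v, I v ⊆ Finset.range M) :
    ∃ T : V → Finset ℕ, (∀ v, I v ⊆ T v) ∧ (∀ v, Cvx (T v)) ∧
      (∀ P, Good I m P → ∃ w ∈ P, P.biUnion I ⊆ T w) ∧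
      ∀ j, (Finset.univ.filter (fun v => j ∈ T v)).card ≤
        (2 * m * (m - 1) + 1) * (Finset.univ.filter (fun v => j ∈ I v)).card := by
  set S := {F : Finset V → V // ∀ P, Good I m P → F P ∈ P} with hS
  have : Fintype S := Fintype.ofFinite S
  have hMpos : 0 < M := by
    obtain ⟨x, hx⟩ := hne (Classical.arbitrary V)
    have := Finset.mem_range.1 (hM _ hx)
    omega
  have : Nonempty (Fin M) := ⟨⟨0, hMpos⟩⟩
  have hterM : ∀ (F : Finset V → V) w, ter I m F w ⊆ Finset.range M := by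
    intro F w j hj
    obtain ⟨P, -, -, h⟩ := mem_ter.1 hj
    obtain ⟨v, -, hv⟩ := Finset.mem_biUnion.1 h
    exact hM v hv
  set d : ℕ → ℝ := fun j => ((Finset.univ.filter (fun v => j ∈ I v)).card : ℝ) with hd
  set e : S → ℕ → ℝ := fun F j =>
    ((Finset.univ.filter (fun v => j ∈ ter I m F.1 v \ I v)).card : ℝ) with he
  set ε : ℝ := 1 / (2 * m) with hε
  have hm0 : (0 : ℝ) < m := by exact_mod_cast hm
  have hεpos : 0 < ε := by positivity
  have hmε : (m : ℝ) * ε < 1 := by
    rw [hε]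
    field_simp
    norm_num
  obtain ⟨p, hpK, hp⟩ := minimax (Φ := Fin M) (E := S → ℝ) (stdSimplex ℝ S)
    (convex_stdSimplex ℝ S)
    (fun j p => ∑ F, p F * (2 * ((m : ℝ) - 1) * d j - e F j)) (by
      intro j
      refine ⟨convex_stdSimplex ℝ S, ?_⟩
      intro x _ y _ a b _ _ _
      refine le_of_eq ?_
      simp only [smul_eq_mul, Pi.add_apply, Pi.smul_apply]
      rw [Finset.mul_sum, Finset.mul_sum, ← Finset.sum_add_distrib]
      exact Finset.sum_congr rfl fun F _ => by ring) 0 (by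
      intro l hl _
      set g : ℕ → ℝ := fun j => if h : j < M then l ⟨j, h⟩ else 0 with hg
      have hg0 : ∀ j, 0 ≤ g j := by
        intro j
        simp only [hg]
        split_ifs
        · exact hl _
        · exact le_rfl
      have hgl : ∀ j : Fin M, l j = g j := by
        intro j
        simp [hg]
      obtain ⟨F, hF, hF2⟩ := best_response (I := I) hm hne hI g hg0
      refine ⟨Pi.single ⟨F, hF⟩ 1, single_mem_stdSimplex ℝ _, ?_⟩
      have h1 : ∀ j : Fin M, ∑ F' : S, (Pi.single (⟨F, hF⟩ : S) (1 : ℝ) : S → ℝ) F' *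
          (2 * ((m : ℝ) - 1) * d j - e F' j) = 2 * ((m : ℝ) - 1) * d j - e ⟨F, hF⟩ j := by
        intro j
        rw [Finset.sum_eq_single (⟨F, hF⟩ : S)]
        · simp
        · intro b _ hb
          rw [Pi.single_eq_of_ne hb, zero_mul]
        · intro h; exact absurd (Finset.mem_univ _) h
      rw [Finset.sum_congr rfl fun j _ => by rw [h1 j, hgl j]]
      have h2 : ∑ j : Fin M, g j * (2 * ((m : ℝ) - 1) * d j - e ⟨F, hF⟩ j) =
          2 * ((m : ℝ) - 1) * ∑ j : Fin M, g j * d j - ∑ j : Fin M, g j * e ⟨F, hF⟩ j := by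
        rw [Finset.mul_sum, ← Finset.sum_sub_distrib]
        exact Finset.sum_congr rfl fun j _ => by ring
      rw [h2]
      have h3 : ∑ j : Fin M, g j * d j = ∑ v, ∑ j ∈ I v, g j := double_count I M hM g
      have h4 : ∑ j : Fin M, g j * e ⟨F, hF⟩ j = ∑ v, ∑ j ∈ ter I m F v \ I v, g j :=
        double_count (fun v => ter I m F v \ I v) M
          (fun v => Finset.sdiff_subset.trans (hterM F v)) g
      rw [h3, h4, Finset.mul_sum, ← Finset.sum_sub_distrib]
      exact Finset.sum_nonneg fun v _ => by linarith [hF2 v]) ε hεpos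
  -- probabilities
  set q : V → ℕ → ℝ := fun w j => ∑ F : S, if j ∈ ter I m F.1 w then p F else 0 with hq
  have hp0 : ∀ F, 0 ≤ p F := hpK.1
  have hp1 : ∑ F, p F = 1 := hpK.2
  refine ⟨fun w => (Finset.range M).filter (fun j => 1 ≤ m * q w j), ?_, ?_, ?_, ?_⟩
  · intro w j hj
    rw [Finset.mem_filter]
    refine ⟨hM w hj, ?_⟩
    have : q w j = 1 := by
      rw [hq, ← hp1]
      refine Finset.sum_congr rfl fun F _ => ?_
      rw [if_pos (I_sub_ter hm hI F.2 w hj)]
    rw [this, mul_one]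
    exact_mod_cast hm
  · intro w a b c hab hbc ha hc
    rw [Finset.mem_filter] at *
    refine ⟨Finset.mem_range.2 (lt_of_le_of_lt hbc (Finset.mem_range.1 hc.1)), ?_⟩
    obtain ⟨x, hx⟩ := hne w
    have hmono : ∀ y, ((y ≤ b ∧ b ≤ x) ∨ (x ≤ b ∧ b ≤ y)) → q w y ≤ q w b := by
      intro y hy
      refine Finset.sum_le_sum fun F _ => ?_
      by_cases h1 : y ∈ ter I m F.1 w
      · rw [if_pos h1, if_pos (ter_between F.2 hx h1 hy)]
      · rw [if_neg h1]
        split_ifs
        · exact hp0 F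
        · exact le_rfl
    rcases le_total b x with h | h
    · exact ha.2.trans (mul_le_mul_of_nonneg_left (hmono a (Or.inl ⟨hab, h⟩)) hm0.le)
    · exact hc.2.trans (mul_le_mul_of_nonneg_left (hmono c (Or.inr ⟨h, hbc⟩)) hm0.le)
  · intro P hP
    -- some member of `P` is chosen with probability at least `1 / m`
    have h1 : ∑ w ∈ P, ∑ F : S, (if F.1 P = w then p F else 0) = 1 := by
      rw [Finset.sum_comm, ← hp1]
      refine Finset.sum_congr rfl fun F _ => ?_
      rw [Finset.sum_ite_eq, if_pos (F.2 P hP)]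
    obtain ⟨w, hw, hw2⟩ : ∃ w ∈ P, 1 ≤ m * ∑ F : S, (if F.1 P = w then p F else 0) := by
      by_contra hcon
      push Not at hcon
      have h2 : ∑ w ∈ P, m * ∑ F : S, (if F.1 P = w then p F else 0) < ∑ _w ∈ P, (1 : ℝ) :=
        Finset.sum_lt_sum_of_nonempty hP.1 hcon
      rw [← Finset.mul_sum, h1, Finset.sum_const, nsmul_eq_mul, mul_one, mul_one] at h2
      have : (P.card : ℝ) ≤ m := by exact_mod_cast hP.2.1
      linarith
    refine ⟨w, hw, fun j hj => ?_⟩
    rw [Finset.mem_filter]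
    refine ⟨?_, hw2.trans (mul_le_mul_of_nonneg_left ?_ hm0.le)⟩
    · obtain ⟨v, -, hv⟩ := Finset.mem_biUnion.1 hj
      exact hM v hv
    · refine Finset.sum_le_sum fun F _ => ?_
      by_cases h3 : F.1 P = w
      · rw [if_pos h3, if_pos (mem_ter.2 ⟨P, hP, h3, hj⟩)]
      · rw [if_neg h3]
        split_ifs
        · exact hp0 F
        · exact le_rfl
  · intro j
    by_cases hj : j < M
    swap
    · rw [Finset.filter_false_of_mem, Finset.card_empty]
      · exact Nat.zero_le _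
      · intro v _ h
        exact hj (Finset.mem_range.1 (Finset.mem_filter.1 h).1)
    -- bound on the expected extension
    have h1 : ∑ F : S, p F * e F j ≤ 2 * ((m : ℝ) - 1) * d j + ε := by
      have h2 := hp ⟨j, hj⟩
      simp only at h2
      have h3 : ∑ F : S, p F * (2 * ((m : ℝ) - 1) * d j - e F j) =
          2 * ((m : ℝ) - 1) * d j - ∑ F : S, p F * e F j := by
        have : ∀ F : S, p F * (2 * ((m : ℝ) - 1) * d j - e F j) =
            p F * (2 * ((m : ℝ) - 1) * d j) - p F * e F j := fun F => by ring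
        rw [Finset.sum_congr rfl fun F _ => this F, Finset.sum_sub_distrib, ← Finset.sum_mul,
          hp1, one_mul]
      rw [h3] at h2
      linarith
    have hsub : Finset.univ.filter (fun v => j ∈ (Finset.range M).filter
        (fun j => 1 ≤ m * q v j)) ⊆ Finset.univ.filter (fun v => j ∈ I v) ∪
          Finset.univ.filter (fun v => j ∉ I v ∧ 1 ≤ m * q v j) := by
      intro v hv
      rw [Finset.mem_filter, Finset.mem_filter] at hv
      rw [Finset.mem_union, Finset.mem_filter, Finset.mem_filter]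
      by_cases h : j ∈ I v
      · exact Or.inl ⟨Finset.mem_univ _, h⟩
      · exact Or.inr ⟨Finset.mem_univ _, h, hv.2.2⟩
    have hext : ((Finset.univ.filter (fun v => j ∉ I v ∧ 1 ≤ m * q v j)).card : ℝ) ≤
        m * ∑ F : S, p F * e F j := by
      have h4 : ∑ F : S, p F * e F j = ∑ v ∈ Finset.univ.filter (fun v => j ∉ I v), q v j := by
        have h5 : ∀ F : S, p F * e F j = ∑ v ∈ Finset.univ.filter (fun v => j ∉ I v),
            if j ∈ ter I m F.1 v then p F else 0 := by
          intro F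
          have h6 : Finset.univ.filter (fun v => j ∈ ter I m F.1 v \ I v) =
              (Finset.univ.filter (fun v => j ∉ I v)).filter (fun v => j ∈ ter I m F.1 v) := by
            ext v
            simp only [Finset.mem_filter, Finset.mem_univ, true_and, Finset.mem_sdiff]
            exact and_comm
          have h7 : e F j = (((Finset.univ.filter (fun v => j ∉ I v)).filter
              (fun v => j ∈ ter I m F.1 v)).card : ℝ) := by
            rw [← h6]
          rw [h7, ← Finset.sum_filter, Finset.sum_const, nsmul_eq_mul, mul_comm]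
        rw [Finset.sum_congr rfl fun F _ => h5 F, Finset.sum_comm]
      rw [h4, Finset.mul_sum]
      have hsub2 : Finset.univ.filter (fun v => j ∉ I v ∧ 1 ≤ m * q v j) ⊆
          Finset.univ.filter (fun v => j ∉ I v) := by
        intro v hv
        rw [Finset.mem_filter] at *
        exact ⟨hv.1, hv.2.1⟩
      have hq0 : ∀ v, 0 ≤ q v j := fun v => Finset.sum_nonneg fun F _ => by
        split_ifs
        · exact hp0 F
        · exact le_rfl
      calc ((Finset.univ.filter (fun v => j ∉ I v ∧ 1 ≤ m * q v j)).card : ℝ)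
          = ∑ _v ∈ Finset.univ.filter (fun v => j ∉ I v ∧ 1 ≤ m * q v j), (1 : ℝ) := by
            rw [Finset.sum_const, nsmul_eq_mul, mul_one]
        _ ≤ ∑ v ∈ Finset.univ.filter (fun v => j ∉ I v ∧ 1 ≤ m * q v j), m * q v j :=
            Finset.sum_le_sum fun v hv => (Finset.mem_filter.1 hv).2.2
        _ ≤ ∑ v ∈ Finset.univ.filter (fun v => j ∉ I v), m * q v j :=
            Finset.sum_le_sum_of_subset_of_nonneg hsub2 fun v _ _ =>
              mul_nonneg hm0.le (hq0 v)
    have hlt : ((Finset.univ.filter (fun v => j ∉ I v ∧ 1 ≤ m * q v j)).card : ℝ) <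
        2 * m * ((m : ℝ) - 1) * d j + 1 := by
      have h5 := mul_le_mul_of_nonneg_left h1 hm0.le
      nlinarith
    have hnat : (Finset.univ.filter (fun v => j ∉ I v ∧ 1 ≤ m * q v j)).card ≤
        2 * m * (m - 1) * (Finset.univ.filter (fun v => j ∈ I v)).card :=
      cast_bound hm _ _ hlt
    calc _ ≤ _ := Finset.card_le_card hsub
      _ ≤ (Finset.univ.filter (fun v => j ∈ I v)).card +
          (Finset.univ.filter (fun v => j ∉ I v ∧ 1 ≤ m * q v j)).card := Finset.card_union_le _ _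
      _ ≤ (Finset.univ.filter (fun v => j ∈ I v)).card +
          2 * m * (m - 1) * (Finset.univ.filter (fun v => j ∈ I v)).card :=
        Nat.add_le_add_left hnat _
      _ = _ := by ring

end Terr

/-! ### The colouring -/

lemma core {V α : Type} [Fintype V] [Nonempty V] (G : SimpleGraph V) (m θ : ℕ) (hm : 1 ≤ m)
    (B : ℕ → Finset V) (hB1 : ∀ i, (B i).card ≤ θ + 1) (hB2 : ∀ v, ∃ i, v ∈ B i)
    (hB3 : ∀ u v, G.Adj u v → ∃ i, u ∈ B i ∧ v ∈ B i)
    (hB4 : ∀ v i j k, i ≤ j → j ≤ k → v ∈ B i → v ∈ B k → v ∈ B j)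
    (L : V → Finset α) (hL : ∀ v, (2 * m * (m - 1) + 1) * (θ + 1) ≤ (L v).card) :
    ∃ c : V → α, (∀ v, c v ∈ L v) ∧ ∀ (k : ℕ) (p : ℕ → V), 1 ≤ k →
      2 * k ≤ m + 2 → (∀ i j, i < 2 * k → j < 2 * k → p i = p j → i = j) →
      (∀ i, i + 1 < 2 * k → G.Adj (p i) (p (i + 1))) →
      ∃ i, i < k ∧ c (p i) ≠ c (p (i + k)) := by
  -- a bound for the relevant bags
  obtain ⟨M, hM1, hM2⟩ : ∃ M, (∀ v, ∃ i, i < M ∧ v ∈ B i) ∧
      (∀ u v, G.Adj u v → ∃ i, i < M ∧ u ∈ B i ∧ v ∈ B i) := by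
    choose w hw using hB2
    have h3 : ∀ q : V × V, ∃ i, G.Adj q.1 q.2 → q.1 ∈ B i ∧ q.2 ∈ B i := by
      intro q
      by_cases h : G.Adj q.1 q.2
      · obtain ⟨i, hi⟩ := hB3 _ _ h
        exact ⟨i, fun _ => hi⟩
      · exact ⟨0, fun h' => absurd h' h⟩
    choose e he using h3
    refine ⟨Finset.univ.sup w + Finset.univ.sup e + 1, ?_, ?_⟩
    · intro v
      have := Finset.le_sup (f := w) (Finset.mem_univ v)
      exact ⟨w v, by omega, hw v⟩
    · intro u v h
      have := Finset.le_sup (f := e) (Finset.mem_univ (u, v))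
      exact ⟨e (u, v), by omega, he (u, v) h⟩
  set I : V → Finset ℕ := fun v => (Finset.range M).filter (fun i => v ∈ B i) with hI
  have hmem : ∀ v i, i ∈ I v ↔ i < M ∧ v ∈ B i := by
    intro v i
    rw [hI, Finset.mem_filter, Finset.mem_range]
  have hne : ∀ v, (I v).Nonempty := by
    intro v
    obtain ⟨i, hi⟩ := hM1 v
    exact ⟨i, (hmem v i).2 hi⟩
  have hcvx : ∀ v, Cvx (I v) := by
    intro v a b c hab hbc ha hc
    rw [hmem] at *
    exact ⟨by omega, hB4 v a b c hab hbc ha.2 hc.2⟩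
  have hadjI : ∀ u v, G.Adj u v → ∃ j, j ∈ I u ∧ j ∈ I v := by
    intro u v h
    obtain ⟨i, h1, h2, h3⟩ := hM2 u v h
    exact ⟨i, (hmem _ _).2 ⟨h1, h2⟩, (hmem _ _).2 ⟨h1, h3⟩⟩
  obtain ⟨T, hIT, hTc, hdom, hdep⟩ := territories (I := I) hm hne hcvx M
    (fun v => Finset.filter_subset _ _)
  obtain ⟨c, hcL, hc⟩ := greedy T (fun v => (hne v).mono (hIT v)) hTc
    ((2 * m * (m - 1) + 1) * (θ + 1)) (by positivity) L hL Finset.univ (by
      intro j
      refine (hdep j).trans (Nat.mul_le_mul_left _ ?_)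
      refine (Finset.card_le_card ?_).trans (hB1 j)
      intro v hv
      exact ((hmem v j).1 (Finset.mem_filter.1 hv).2).2)
  have hcol : ∀ u v, u ≠ v → (∃ j, j ∈ T u ∧ j ∈ T v) → c u ≠ c v := fun u v =>
    hc u (Finset.mem_univ u) v (Finset.mem_univ v)
  refine ⟨c, hcL, ?_⟩
  intro k p hk hkm hinj hadj
  rcases Nat.lt_or_ge k 2 with hk2 | hk2
  · -- one edge
    have hk1 : k = 1 := by omega
    subst hk1
    refine ⟨0, by omega, hcol _ _ ?_ ?_⟩
    · intro h
      have := hinj 0 (0 + 1) (by omega) (by omega) h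
      omega
    · obtain ⟨j, hj1, hj2⟩ := hadjI _ _ (hadj 0 (by omega))
      exact ⟨j, hIT _ hj1, hIT _ hj2⟩
  · -- the inner vertices
    set P : Finset V := (Finset.range (2 * k - 3 + 1)).image (fun i => p (i + 1)) with hP
    have hpP : ∀ a, 1 ≤ a → a ≤ 2 * k - 2 → p a ∈ P := by
      intro a h1 h2
      rw [hP, Finset.mem_image]
      refine ⟨a - 1, Finset.mem_range.2 (by omega), ?_⟩
      show p (a - 1 + 1) = p a
      rw [Nat.sub_add_cancel h1]
    have hgood : Good I m P := by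
      refine ⟨⟨p 1, hpP 1 le_rfl (by omega)⟩, ?_, ?_⟩
      · refine Finset.card_image_le.trans ?_
        rw [Finset.card_range]
        omega
      · rw [hP, Finset.image_biUnion]
        refine Cvx.chain _ _ (fun i _ => hcvx _) ?_
        intro i hi
        exact hadjI _ _ (hadj (i + 1) (by omega))
    obtain ⟨w, hw, hwT⟩ := hdom P hgood
    rw [hP, Finset.mem_image] at hw
    obtain ⟨i, hi, rfl⟩ := hw
    rw [Finset.mem_range] at hi
    -- vertices which meet the union of the intervals of `P`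
    have hmeet : ∀ b, (∃ a, 1 ≤ a ∧ a ≤ 2 * k - 2 ∧ ∃ j, j ∈ I (p a) ∧ j ∈ I (p b)) →
        ∃ j, j ∈ T (p (i + 1)) ∧ j ∈ T (p b) := by
      rintro b ⟨a, h1, h2, j, hj1, hj2⟩
      exact ⟨j, hwT (Finset.mem_biUnion.2 ⟨p a, hpP a h1 h2, hj1⟩), hIT _ hj2⟩
    have hinner : ∀ b, 1 ≤ b → b ≤ 2 * k - 2 →
        (∃ a, 1 ≤ a ∧ a ≤ 2 * k - 2 ∧ ∃ j, j ∈ I (p a) ∧ j ∈ I (p b)) := by
      intro b h1 h2
      obtain ⟨j, hj⟩ := hne (p b)
      exact ⟨b, h1, h2, j, hj, hj⟩
    rcases Nat.lt_or_ge (i + 1) k with h | h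
    · refine ⟨i + 1, h, hcol _ _ ?_ (hmeet _ ?_)⟩
      · intro h3
        have := hinj (i + 1) (i + 1 + k) (by omega) (by omega) h3
        omega
      · rcases Nat.lt_or_ge (i + 1 + k) (2 * k - 1) with h4 | h4
        · exact hinner _ (by omega) (by omega)
        · have h5 : i + 1 + k = 2 * k - 2 + 1 := by omega
          rw [h5]
          exact ⟨2 * k - 2, by omega, le_rfl, hadjI _ _ (hadj (2 * k - 2) (by omega))⟩
    · refine ⟨i + 1 - k, by omega, ?_⟩
      rw [Nat.sub_add_cancel h]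
      refine (hcol _ _ ?_ (hmeet _ ?_)).symm
      · intro h3
        have := hinj (i + 1) (i + 1 - k) (by omega) (by omega) h3
        omega
      · rcases Nat.eq_zero_or_pos (i + 1 - k) with h4 | h4
        · rw [h4]
          obtain ⟨j, hj1, hj2⟩ := hadjI _ _ (hadj 0 (by omega))
          exact ⟨1, le_rfl, by omega, j, hj2, hj1⟩
        · exact hinner _ h4 (by omega)

/-- **Result.** Let `G` be a finite graph with a path decomposition of width at most `θ`, `m` a
natural number, and let every vertex have a list of at least `(2 m (m - 1) + 1) (θ + 1)` colours. Then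
`G` has a vertex colouring from the lists in which no path with `2 k ≤ m + 2` vertices has its first
half coloured identically to its second half. So for each bound on the length of the repetitions
the number of colours is linear in the path-width; with `m = 2` this is a star colouring from lists
of `5 (θ + 1)` colours. -/
theorem result :
    ∀ (m θ : ℕ) (V α : Type) [Fintype V] (G : SimpleGraph V) (B : ℕ → Finset V),
      (∀ i, (B i).card ≤ θ + 1) →
      (∀ v, ∃ i, v ∈ B i) →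
      (∀ u v, G.Adj u v → ∃ i, u ∈ B i ∧ v ∈ B i) →
      (∀ v i j k, i ≤ j → j ≤ k → v ∈ B i → v ∈ B k → v ∈ B j) →
      ∀ L : V → Finset α, (∀ v, (2 * m * (m - 1) + 1) * (θ + 1) ≤ (L v).card) →
      ∃ c : V → α, (∀ v, c v ∈ L v) ∧
        ∀ (k : ℕ) (p : ℕ → V), 1 ≤ k → 2 * k ≤ m + 2 →
          (∀ i j, i < 2 * k → j < 2 * k → p i = p j → i = j) →
          (∀ i, i + 1 < 2 * k → G.Adj (p i) (p (i + 1))) →
          ∃ i, i < k ∧ c (p i) ≠ c (p (i + k)) := by
  intro m θ V α _ G B hB1 hB2 hB3 hB4 L hL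
  rcases isEmpty_or_nonempty V with hV | hV
  · exact ⟨fun v => hV.elim v, fun v => hV.elim v, fun k p => hV.elim (p 0)⟩
  · rcases Nat.eq_zero_or_pos m with rfl | hm
    · obtain ⟨c, hcL, hc⟩ := core G 1 θ le_rfl B hB1 hB2 hB3 hB4 L hL
      exact ⟨c, hcL, fun k p hk h2k => hc k p hk (by omega)⟩
    · exact core G m θ hm B hB1 hB2 hB3 hB4 L hL

end Pool.Agent.Results.MP_fbd18f_co.ShortRepetitions
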